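import Pool.Agent.Helper60.LMA.Tail
import Pool.Agent.Helper22.WC.LawS
import Pool.Agent.Helper99.WC.Sup

/-!
# LMA: the limit law at the worst centre, from the blocks alone
-/

open MeasureTheory Real Set Filter Topology

set_option autoImplicit false

namespace Pool.Agent.Helper60.LMA

open Pool.Agent.Helper22.AE
open Pool.Agent.Helper22.WC (LimS)
open Pool.Agent.Helper75.LMA (BlkT)

/-- no condition on the oval beyond the blocks -/
theorem limS_of_blk {H : ℝ → ℝ} (hH : IsSupp H) {s e : ℝ} (hs : 2 ≤ s) (he : 0 < e) (he2 : e ≤ 1 / 8) (hB : BlkT H s e) {φ : ℝ → ℝ}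
    (hφ : Continuous φ) (hc : HasCompactSupport φ) : LimS H φ :=
  Pool.Agent.Helper22.WC.law_of_S hH.smooth hH.per hH.rho_pos (htail hH hs he he2 hB)
    (fun N _ hφ => Pool.Agent.Helper99.WC.sup_mean H N hφ) hφ hc

end Pool.Agent.Helper60.LMA
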