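import Pool.Agent.Helper90.AM.DilLow
import Pool.Agent.Helper11.MM.Tail
import Pool.Agent.Helper60.WC.SupE
import Pool.Agent.Helper64.LM.Dyadic
import Pool.Agent.Helper92.LW.Tools
import Pool.Agent.Helper75.LMA.Defs

/-!
# LMA, block X4: the tail and the growth at the worst centre, from the moments of the blocks
-/

open MeasureTheory Real Set Filter Topology
open scoped ENNReal NNReal

set_option autoImplicit false

namespace Pool.Agent.Helper60.LMA

open Pool.Agent.Helper22.AE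
open Pool.Agent.Helper22.AC (cntc)
open Pool.Agent.Helper22.WC (SupE)
open Pool.Agent.Helper92.GC (dt sqa)
open Pool.Agent.Helper93.EX (Mx)
open Pool.Agent.Helper11.MM
open Pool.Agent.Helper75.LMA (BlkT)

/-- the weighted mean of a power, every real exponent -/
theorem wpr {S : Finset ℕ} {a w : ℕ → ℝ} (ha : ∀ n ∈ S, 0 ≤ a n) (hw : ∀ n, 0 < w n) {Z s : ℝ} (hs : 1 ≤ s)
    (hZ : ∑ n ∈ S, w n ≤ Z) : (∑ n ∈ S, a n) ^ s ≤ Z ^ (s - 1) * ∑ n ∈ S, w n ^ (1 - s) * a n ^ s := by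
  rcases S.eq_empty_or_nonempty with h | h
  · subst h
    simp only [Finset.sum_empty, mul_zero]
    rw [Real.zero_rpow (by linarith)]
  obtain ⟨W, hW⟩ : ∃ W : ℝ, W = ∑ n ∈ S, w n := ⟨_, rfl⟩
  have hW0 : 0 < W := by
    rw [hW]
    exact Finset.sum_pos (fun n _ => hw n) h
  have h1 := Real.rpow_arith_mean_le_arith_mean_rpow S (fun n => w n / W) (fun n => a n * W / w n)
    (fun n _ => div_nonneg (hw n).le hW0.le) (by rw [← Finset.sum_div, ← hW, div_self hW0.ne'])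
    (fun n hn => div_nonneg (mul_nonneg (ha n hn) hW0.le) (hw n).le) hs
  have e1 : ∑ n ∈ S, w n / W * (a n * W / w n) = ∑ n ∈ S, a n := by
    refine Finset.sum_congr rfl fun n _ => ?_
    have := (hw n).ne'
    field_simp
  have e2 : ∑ n ∈ S, w n / W * (a n * W / w n) ^ s = W ^ (s - 1) * ∑ n ∈ S, w n ^ (1 - s) * a n ^ s := by
    rw [Finset.mul_sum]
    refine Finset.sum_congr rfl fun n hn => ?_
    rw [Real.div_rpow (mul_nonneg (ha n hn) hW0.le) (hw n).le, Real.mul_rpow (ha n hn) hW0.le, Real.rpow_sub hW0,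
      Real.rpow_sub (hw n), Real.rpow_one, Real.rpow_one]
    field_simp
  rw [e1, e2] at h1
  refine h1.trans (mul_le_mul_of_nonneg_right (Real.rpow_le_rpow hW0.le (hW ▸ hZ) (by linarith)) ?_)
  exact Finset.sum_nonneg fun n hn => mul_nonneg (Real.rpow_nonneg (hw n).le _) (Real.rpow_nonneg (ha n hn) _)

theorem three_rpow {x y z s : ℝ} (hx : 0 ≤ x) (hy : 0 ≤ y) (hz : 0 ≤ z) (hs : 0 ≤ s) :
    (x + y + z) ^ s ≤ 3 ^ s * (x ^ s + y ^ s + z ^ s) := by
  obtain ⟨M, hM⟩ : ∃ M : ℝ, M = max x (max y z) := ⟨_, rfl⟩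
  have h1 : x ≤ M := by rw [hM]; exact le_max_left _ _
  have h2 : y ≤ M := by rw [hM]; exact (le_max_left _ _).trans (le_max_right _ _)
  have h3 : z ≤ M := by rw [hM]; exact (le_max_right _ _).trans (le_max_right _ _)
  have hM0 : 0 ≤ M := hx.trans h1
  have a1 := Real.rpow_nonneg hx s
  have a2 := Real.rpow_nonneg hy s
  have a3 := Real.rpow_nonneg hz s
  have hMs : M ^ s ≤ x ^ s + y ^ s + z ^ s := by
    rw [hM]
    rcases max_choice x (max y z) with h | h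
    · rw [h]
      linarith
    · rw [h]
      rcases max_choice y z with h' | h'
      · rw [h']
        linarith
      · rw [h']
        linarith
  calc (x + y + z) ^ s ≤ (3 * M) ^ s := Real.rpow_le_rpow (by positivity) (by linarith) hs
    _ = 3 ^ s * M ^ s := Real.mul_rpow (by norm_num) hM0
    _ ≤ _ := mul_le_mul_of_nonneg_left hMs (by positivity)

private lemma pow_ex60 (x : ℝ) : ∃ n : ℕ, x ≤ 2 ^ n := by
  obtain ⟨n, hn⟩ := pow_unbounded_of_one_lt x one_lt_two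
  exact ⟨n, hn.le⟩

/-- the majorant of the tail over dyadic intervals, with a large cut -/
theorem core_ge {H : ℝ → ℝ} (hH : IsSupp H) {s e : ℝ} (hs : 2 ≤ s) (he : 0 < e) (he2 : e ≤ 1 / 8) (hB : BlkT H s e) (m0 : ℕ) {κ : ℝ} (hκ : 0 < κ) :
    ∃ n0 p0 : ℕ, m0 ≤ n0 ∧ ∀ p : ℕ, p0 ≤ p → ∃ G : ℝ → ℝ, Continuous G ∧ (∀ R, 0 ≤ G R) ∧
      (∀ R ∈ Icc ((2 : ℝ) ^ p) (2 * 2 ^ p), ∀ c : ℝ × ℝ, |cntc H c R - area H * R ^ 2 - sqrt R * Mx H (2 ^ n0) R c| ≤ G R) ∧
      ∫ R in Icc ((2 : ℝ) ^ p) (2 * 2 ^ p), G R ^ s ≤ κ * ((2 : ℝ) ^ p) ^ (1 + s / 2) := by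
  obtain ⟨m, hm, hlow1⟩ := Pool.Agent.Helper90.AM.dil_low hH (τ := 1 / 2 + e / 2) (e2 := e / 2) (by linarith) (by linarith) (by linarith)
  obtain ⟨K, u, hK, hu, p1, hBl⟩ := hB
  have hs0 : 0 < s := by linarith
  obtain ⟨θ, hθ⟩ : ∃ θ : ℝ, θ = u / (2 * s) := ⟨_, rfl⟩
  have hθ0 : 0 < θ := by rw [hθ]; positivity
  have hθs : θ * (s - 1) ≤ u / 2 := by
    have h1 : θ * s = u / 2 := by
      rw [hθ]
      field_simp
    nlinarith
  obtain ⟨Z, hZ0, hZ⟩ := geo_le hθ0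
  obtain ⟨P, hP⟩ : ∃ P : ℝ, P = 3 ^ s * (2 * (Z ^ (s - 1) * K)) := ⟨_, rfl⟩
  have hP0 : 0 ≤ P := by rw [hP]; positivity
  obtain ⟨g, hg⟩ : ∃ g : ℝ, g = κ / (2 * (P + 1)) := ⟨_, rfl⟩
  have hg0 : 0 < g := by rw [hg]; positivity
  have hPg : P * g ≤ κ / 2 := by
    rw [hg, ← mul_div_assoc, div_le_iff₀ (by positivity)]
    nlinarith
  obtain ⟨n00, hn00⟩ := geo_tail (κ := u / 2) (by positivity) hg0
  obtain ⟨n0, hn0m, hn0n, hn0⟩ : ∃ n0 : ℕ, m0 ≤ n0 ∧ n00 ≤ n0 ∧ ∀ n1 : ℕ, ∑ n ∈ Finset.Ico n0 n1, ((2 : ℝ) ^ n) ^ (-(u / 2)) ≤ g :=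
    ⟨max m0 n00, le_max_left _ _, le_max_right _ _, fun n1 => le_trans (Finset.sum_le_sum_of_subset_of_nonneg
      (Finset.Ico_subset_Ico_left (le_max_right _ _)) fun n _ _ => by positivity) (hn00 n1)⟩
  obtain ⟨ε, hε⟩ : ∃ ε : ℝ, ε = (κ / (2 * 3 ^ s)) ^ (1 / s) := ⟨_, rfl⟩
  have hε0 : 0 < ε := by rw [hε]; positivity
  have hεs : 3 ^ s * ε ^ s = κ / 2 := by
    rw [hε, ← Real.rpow_mul (by positivity), one_div_mul_cancel hs0.ne', Real.rpow_one]
    field_simp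
  obtain ⟨R₁, hR₁, hlow2⟩ := hlow1 n0 ε hε0
  obtain ⟨N₂, hN₂⟩ := pow_ex60 R₁
  refine ⟨n0, p1 + N₂ + 2 * n0, hn0m, fun p hp => ?_⟩
  obtain ⟨R0, hR0def⟩ : ∃ R0 : ℝ, R0 = 2 ^ p := ⟨_, rfl⟩
  obtain ⟨B, hB⟩ := hBl p (by omega)
  rw [← hR0def] at hB ⊢
  have hR1 : (1 : ℝ) ≤ R0 := by rw [hR0def]; exact one_le_pow₀ (by norm_num)
  have hR0 : (0 : ℝ) < R0 := by linarith
  have hexn : ∃ n : ℕ, R0 ^ (1 / 2 + e) ≤ 2 ^ n := pow_ex60 _
  obtain ⟨n1, hn1⟩ : ∃ n1 : ℕ, n1 = Nat.find hexn := ⟨_, rfl⟩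
  have hn1s : R0 ^ (1 / 2 + e) ≤ 2 ^ n1 := by rw [hn1]; exact Nat.find_spec hexn
  have hsmall : ∀ n < n1, (2 : ℝ) ^ n ≤ R0 ^ (1 / 2 + e) := by
    intro n hn
    rw [hn1] at hn
    have := Nat.find_min hexn hn
    rw [not_le] at this
    exact this.le
  have hn01 : n0 ≤ n1 := by
    have h1 : (2 : ℝ) ^ n0 ≤ 2 ^ n1 := by
      refine le_trans ?_ hn1s
      calc (2 : ℝ) ^ n0 = ((2 : ℝ) ^ (2 * n0)) ^ (1 / 2 : ℝ) := by
            rw [← Real.rpow_natCast _ (2 * n0), ← Real.rpow_mul (by norm_num), ← Real.rpow_natCast]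
            congr 1
            push_cast
            ring
        _ ≤ R0 ^ (1 / 2 : ℝ) := by
            rw [hR0def]
            exact Real.rpow_le_rpow (by positivity) (pow_le_pow_right₀ (by norm_num) (by omega)) (by norm_num)
        _ ≤ R0 ^ (1 / 2 + e) := Real.rpow_le_rpow_of_exponent_le hR1 (by linarith)
    exact (pow_le_pow_iff_right₀ (by norm_num : (1 : ℝ) < 2)).mp h1
  have hbig : R₁ ≤ R0 := by
    rw [hR0def]
    exact hN₂.trans (pow_le_pow_right₀ (by norm_num) (by omega))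
  obtain ⟨hd1, hdl⟩ := hlow2 R0 hbig
  obtain ⟨d, hd⟩ : ∃ d : ℝ, d = m * R0 ^ (-(1 / 2 + e / 2)) := ⟨_, rfl⟩
  have hd0 : 0 ≤ d := by rw [hd]; positivity
  rw [← hd] at hd1
  have hpow : R0 ^ (1 / 2 + e / 2 + e / 2) ≤ 2 ^ n1 := by
    rw [show (1 / 2 + e / 2 + e / 2 : ℝ) = 1 / 2 + e by ring]
    exact hn1s
  have hfin := hdl n1 hn01 hpow B (fun n _ hn r hr => ⟨(hB n (hsmall n hn)).2.1 r, fun c' => (hB n (hsmall n hn)).2.2.1 r hr c'⟩)
  rw [← hd] at hfin
  obtain ⟨S, hS⟩ : ∃ S : ℝ → ℝ, S = fun R => ∑ n ∈ Finset.Ico n0 n1, B n R := ⟨_, rfl⟩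
  have hSc : Continuous S := by
    rw [hS]
    exact continuous_finsetSum _ fun n hn => (hB n (hsmall n (Finset.mem_Ico.1 hn).2)).1
  have hS0 : ∀ R, 0 ≤ S R := fun R => by
    rw [hS]
    exact Finset.sum_nonneg fun n hn => (hB n (hsmall n (Finset.mem_Ico.1 hn).2)).2.1 R
  have hSs : Continuous fun R => S R ^ s := hSc.rpow_const fun _ => Or.inr hs0.le
  -- the power mean
  have hZs : ∑ n ∈ Finset.Ico n0 n1, ((2 : ℝ) ^ n) ^ (-θ) ≤ Z := by
    refine le_trans (Finset.sum_le_sum_of_subset_of_nonneg ?_ fun n _ _ => by positivity) (hZ n1)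
    intro n hn
    exact Finset.mem_range.mpr (Finset.mem_Ico.mp hn).2
  have hSint : ∫ R in Icc (R0 / 2) (4 * R0), S R ^ s ≤ Z ^ (s - 1) * K * g * R0 ^ (1 + s / 2) := by
    have hpt : ∀ R, S R ^ s ≤ Z ^ (s - 1) * ∑ n ∈ Finset.Ico n0 n1, (((2 : ℝ) ^ n) ^ (-θ)) ^ (1 - s) * B n R ^ s := by
      intro R
      rw [hS]
      exact wpr (fun n hn => (hB n (hsmall n (Finset.mem_Ico.1 hn).2)).2.1 R) (fun n => by positivity) (by linarith) hZs
    have hBi : ∀ n ∈ Finset.Ico n0 n1, IntegrableOn (fun R => B n R ^ s) (Icc (R0 / 2) (4 * R0)) := fun n hn =>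
      ((hB n (hsmall n (Finset.mem_Ico.1 hn).2)).1.rpow_const fun _ => Or.inr hs0.le).continuousOn.integrableOn_compact isCompact_Icc
    calc ∫ R in Icc (R0 / 2) (4 * R0), S R ^ s ≤
        ∫ R in Icc (R0 / 2) (4 * R0), Z ^ (s - 1) * ∑ n ∈ Finset.Ico n0 n1, (((2 : ℝ) ^ n) ^ (-θ)) ^ (1 - s) * B n R ^ s := by
          refine setIntegral_mono_on (hSs.continuousOn.integrableOn_compact isCompact_Icc) ?_ measurableSet_Icc fun R _ => hpt R
          exact Integrable.const_mul (integrable_finsetSum _ fun n hn => (hBi n hn).const_mul _) _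
      _ = Z ^ (s - 1) * ∑ n ∈ Finset.Ico n0 n1, (((2 : ℝ) ^ n) ^ (-θ)) ^ (1 - s) * ∫ R in Icc (R0 / 2) (4 * R0), B n R ^ s := by
          rw [integral_const_mul, integral_finsetSum _ fun n hn => (hBi n hn).const_mul _]
          congr 1
          exact Finset.sum_congr rfl fun n _ => integral_const_mul _ _
      _ ≤ Z ^ (s - 1) * ∑ n ∈ Finset.Ico n0 n1, K * R0 ^ (1 + s / 2) * ((2 : ℝ) ^ n) ^ (-(u / 2)) := by
          refine mul_le_mul_of_nonneg_left (Finset.sum_le_sum fun n hn => ?_) (by positivity)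
          have h1 := (hB n (hsmall n (Finset.mem_Ico.1 hn).2)).2.2.2
          have h2 : (1 : ℝ) ≤ 2 ^ n := one_le_pow₀ (by norm_num)
          have h3 : (0 : ℝ) < 2 ^ n := by positivity
          calc (((2 : ℝ) ^ n) ^ (-θ)) ^ (1 - s) * ∫ R in Icc (R0 / 2) (4 * R0), B n R ^ s ≤
              (((2 : ℝ) ^ n) ^ (-θ)) ^ (1 - s) * (K * R0 ^ (1 + s / 2) * ((2 : ℝ) ^ n) ^ (-u)) :=
                mul_le_mul_of_nonneg_left h1 (by positivity)
            _ = K * R0 ^ (1 + s / 2) * ((2 : ℝ) ^ n) ^ (θ * (s - 1) - u) := by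
                rw [← Real.rpow_mul h3.le, show θ * (s - 1) - u = -θ * (1 - s) + -u by ring, Real.rpow_add h3]
                ring
            _ ≤ K * R0 ^ (1 + s / 2) * ((2 : ℝ) ^ n) ^ (-(u / 2)) := by
                refine mul_le_mul_of_nonneg_left (Real.rpow_le_rpow_of_exponent_le h2 (by linarith)) (by positivity)
      _ = Z ^ (s - 1) * (K * R0 ^ (1 + s / 2) * ∑ n ∈ Finset.Ico n0 n1, ((2 : ℝ) ^ n) ^ (-(u / 2))) := by
          rw [← Finset.mul_sum]
      _ ≤ Z ^ (s - 1) * (K * R0 ^ (1 + s / 2) * g) := by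
          refine mul_le_mul_of_nonneg_left (mul_le_mul_of_nonneg_left (hn0 n1) (by positivity)) (by positivity)
      _ = _ := by ring
  have hSi : IntegrableOn (fun R => S R ^ s) (Icc (R0 / 2) (4 * R0)) := hSs.continuousOn.integrableOn_compact isCompact_Icc
  have hSn : ∀ R, 0 ≤ S R ^ s := fun R => Real.rpow_nonneg (hS0 R) _
  have i1 := shift_le hSn hSi (a := R0) (b := 2 * R0) (d := d) (by linarith) (by linarith)
  have i2 := shift_le hSn hSi (a := R0) (b := 2 * R0) (d := -d) (by linarith) (by linarith)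
  have hq : sqrt R0 ^ s = R0 ^ (s / 2) := by
    rw [Real.sqrt_eq_rpow, ← Real.rpow_mul hR0.le]
    congr 1
    ring
  refine ⟨fun R => ε * sqrt R0 + S (R + d) + S (R + -d), ?_, ?_, ?_, ?_⟩
  · exact (continuous_const.add (hSc.comp (continuous_add_const d))).add (hSc.comp (continuous_add_const (-d)))
  · intro R
    have := hS0 (R + d)
    have := hS0 (R + -d)
    positivity
  · intro R hR c
    have h1 := hfin R hR c
    rw [Finset.sum_add_distrib] at h1
    rw [hS]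
    simp only
    rw [← sub_eq_add_neg]
    linarith
  · have hpt : ∀ R, (ε * sqrt R0 + S (R + d) + S (R + -d)) ^ s ≤ 3 ^ s * (ε ^ s * R0 ^ (s / 2) + S (R + d) ^ s + S (R + -d) ^ s) := by
      intro R
      have h1 := three_rpow (x := ε * sqrt R0) (by positivity) (hS0 (R + d)) (hS0 (R + -d)) hs0.le
      rwa [Real.mul_rpow hε0.le (Real.sqrt_nonneg _), hq] at h1
    have c1 : Continuous fun R => S (R + d) ^ s := hSs.comp (continuous_add_const d)
    have c2 : Continuous fun R => S (R + -d) ^ s := hSs.comp (continuous_add_const (-d))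
    have j0 : IntegrableOn (fun _ : ℝ => ε ^ s * R0 ^ (s / 2)) (Icc R0 (2 * R0)) :=
      continuous_const.continuousOn.integrableOn_compact isCompact_Icc
    have j1 : IntegrableOn (fun R => S (R + d) ^ s) (Icc R0 (2 * R0)) := c1.continuousOn.integrableOn_compact isCompact_Icc
    have j2 : IntegrableOn (fun R => S (R + -d) ^ s) (Icc R0 (2 * R0)) := c2.continuousOn.integrableOn_compact isCompact_Icc
    have j01 : IntegrableOn (fun R : ℝ => ε ^ s * R0 ^ (s / 2) + S (R + d) ^ s) (Icc R0 (2 * R0)) := j0.add j1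
    calc ∫ R in Icc R0 (2 * R0), (ε * sqrt R0 + S (R + d) + S (R + -d)) ^ s ≤
        ∫ R in Icc R0 (2 * R0), 3 ^ s * (ε ^ s * R0 ^ (s / 2) + S (R + d) ^ s + S (R + -d) ^ s) := by
          refine setIntegral_mono_on ?_ (((j0.add j1).add j2).const_mul _) measurableSet_Icc fun R _ => hpt R
          exact (((continuous_const.add (hSc.comp (continuous_add_const d))).add (hSc.comp (continuous_add_const (-d)))).rpow_const
            fun _ => Or.inr hs0.le).continuousOn.integrableOn_compact isCompact_Icc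
      _ = 3 ^ s * (ε ^ s * R0 ^ (s / 2) * R0 + (∫ R in Icc R0 (2 * R0), S (R + d) ^ s) + ∫ R in Icc R0 (2 * R0), S (R + -d) ^ s) := by
          rw [integral_const_mul, integral_add j01 j2, integral_add j0 j1, setIntegral_const,
            Real.volume_real_Icc_of_le (by linarith), smul_eq_mul]
          ring
      _ ≤ 3 ^ s * (ε ^ s * R0 ^ (s / 2) * R0 + Z ^ (s - 1) * K * g * R0 ^ (1 + s / 2) + Z ^ (s - 1) * K * g * R0 ^ (1 + s / 2)) := by
          refine mul_le_mul_of_nonneg_left ?_ (by positivity)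
          linarith
      _ = (3 ^ s * ε ^ s + P * g) * R0 ^ (1 + s / 2) := by
          have h1 : R0 ^ (1 + s / 2) = R0 ^ (s / 2) * R0 := by
            rw [add_comm, Real.rpow_add hR0, Real.rpow_one]
          rw [h1, hP]
          ring
      _ ≤ κ * R0 ^ (1 + s / 2) := by
          refine mul_le_mul_of_nonneg_right ?_ (by positivity)
          linarith

/-- the majorant of the tail over dyadic intervals -/
theorem core {H : ℝ → ℝ} (hH : IsSupp H) {s e : ℝ} (hs : 2 ≤ s) (he : 0 < e) (he2 : e ≤ 1 / 8) (hB : BlkT H s e) {κ : ℝ} (hκ : 0 < κ) :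
    ∃ n0 p0 : ℕ, ∀ p : ℕ, p0 ≤ p → ∃ G : ℝ → ℝ, Continuous G ∧ (∀ R, 0 ≤ G R) ∧
      (∀ R ∈ Icc ((2 : ℝ) ^ p) (2 * 2 ^ p), ∀ c : ℝ × ℝ, |cntc H c R - area H * R ^ 2 - sqrt R * Mx H (2 ^ n0) R c| ≤ G R) ∧
      ∫ R in Icc ((2 : ℝ) ^ p) (2 * 2 ^ p), G R ^ s ≤ κ * ((2 : ℝ) ^ p) ^ (1 + s / 2) := by
  obtain ⟨n0, p0, -, h⟩ := core_ge hH hs he he2 hB 0 hκ
  exact ⟨n0, p0, h⟩

/-- the tail at the worst centre, with a large cut -/
theorem htail_ge {H : ℝ → ℝ} (hH : IsSupp H) {s e : ℝ} (hs : 2 ≤ s) (he : 0 < e) (he2 : e ≤ 1 / 8) (hB : BlkT H s e) (m0 : ℕ) :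
    ∀ η : ℝ, 0 < η → ∃ (n0 : ℕ) (X₀ : ℝ), m0 ≤ n0 ∧ 1 ≤ X₀ ∧ ∀ X : ℝ, X₀ ≤ X → ∃ V : ℝ → ℝ, IntegrableOn V (Icc X (2 * X)) ∧
      (∀ R ∈ Icc X (2 * X), ∀ c : ℝ × ℝ, |cntc H c R - area H * R ^ 2 - sqrt R * Mx H (2 ^ n0) R c| ^ 2 ≤ V R) ∧
      ∫ R in Icc X (2 * X), V R ≤ η * X ^ 2 := by
  intro η hη
  obtain ⟨d, hd⟩ : ∃ d : ℝ, d = η / 2 := ⟨_, rfl⟩
  have hd0 : 0 < d := by rw [hd]; positivity
  obtain ⟨t, ht⟩ : ∃ t : ℝ, t = (s - 2) / 2 := ⟨_, rfl⟩
  have ht0 : 0 ≤ t := by rw [ht]; linarith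
  obtain ⟨κ, hκ⟩ : ∃ κ : ℝ, κ = d * d ^ t / (1 + 2 ^ (1 + s / 2)) := ⟨_, rfl⟩
  have hκ0 : 0 < κ := by rw [hκ]; positivity
  have hκe : κ * (1 + 2 ^ (1 + s / 2)) = d * d ^ t := by
    rw [hκ]
    field_simp
  obtain ⟨n0, N₂, hm0, h⟩ := core_ge hH hs he he2 hB m0 hκ0
  refine ⟨n0, 2 ^ N₂, hm0, one_le_pow₀ (by norm_num), fun X hX => ?_⟩
  have hX1 : 1 ≤ X := (one_le_pow₀ (by norm_num : (1 : ℝ) ≤ 2)).trans hX
  have hX0 : 0 < X := by linarith
  obtain ⟨N, hN1, hN2⟩ := exists_nat_pow_near hX1 (by norm_num : (1 : ℝ) < 2)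
  have hN : N₂ ≤ N := by
    by_contra hcon
    have h1 : N + 1 ≤ N₂ := by omega
    have h2 : (2 : ℝ) ^ (N + 1) ≤ 2 ^ N₂ := pow_le_pow_right₀ (by norm_num) h1
    linarith
  obtain ⟨G1, m1, p1, b1, s1⟩ := h N hN
  obtain ⟨G2, m2, p2, b2, s2⟩ := h (N + 1) (by omega)
  obtain ⟨S1, hS1⟩ : ∃ S1 : Set ℝ, S1 = Icc ((2 : ℝ) ^ N) (2 * 2 ^ N) := ⟨_, rfl⟩
  obtain ⟨S2, hS2⟩ : ∃ S2 : Set ℝ, S2 = Icc ((2 : ℝ) ^ (N + 1)) (2 * 2 ^ (N + 1)) := ⟨_, rfl⟩
  have hm1 : MeasurableSet S1 := by rw [hS1]; exact measurableSet_Icc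
  have hm2 : MeasurableSet S2 := by rw [hS2]; exact measurableSet_Icc
  have hs0 : 0 < s := by linarith
  obtain ⟨V1, hV1⟩ : ∃ V1 : ℝ → ℝ, V1 = fun R => G1 R ^ s := ⟨_, rfl⟩
  obtain ⟨V2, hV2⟩ : ∃ V2 : ℝ → ℝ, V2 = fun R => G2 R ^ s := ⟨_, rfl⟩
  have i1 : IntegrableOn V1 S1 := by
    rw [hV1, hS1]
    exact (m1.rpow_const fun _ => Or.inr hs0.le).continuousOn.integrableOn_compact isCompact_Icc
  have i2 : IntegrableOn V2 S2 := by
    rw [hV2, hS2]
    exact (m2.rpow_const fun _ => Or.inr hs0.le).continuousOn.integrableOn_compact isCompact_Icc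
  have q1 : ∀ R, 0 ≤ V1 R := fun R => by
    rw [hV1]
    exact Real.rpow_nonneg (p1 R) _
  have q2 : ∀ R, 0 ≤ V2 R := fun R => by
    rw [hV2]
    exact Real.rpow_nonneg (p2 R) _
  have t1 : ∫ R in S1, V1 R ≤ κ * ((2 : ℝ) ^ N) ^ (1 + s / 2) := by
    rw [hS1, hV1]
    exact s1
  have t2 : ∫ R in S2, V2 R ≤ κ * ((2 : ℝ) ^ (N + 1)) ^ (1 + s / 2) := by
    rw [hS2, hV2]
    exact s2
  rw [← hS1] at b1
  rw [← hS2] at b2
  have j1 : Integrable (S1.indicator V1) := (integrable_indicator_iff hm1).2 i1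
  have j2 : Integrable (S2.indicator V2) := (integrable_indicator_iff hm2).2 i2
  have n1 : ∀ R, 0 ≤ S1.indicator V1 R := fun R => indicator_nonneg (fun R _ => q1 R) R
  have n2 : ∀ R, 0 ≤ S2.indicator V2 R := fun R => indicator_nonneg (fun R _ => q2 R) R
  have ha : 0 < d * X := by positivity
  have hat : 0 < (d * X) ^ t := by positivity
  have hconst : IntegrableOn (fun _ : ℝ => d * X) (Icc X (2 * X)) := continuousOn_const.integrableOn_compact isCompact_Icc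
  have j3 : IntegrableOn (fun R => (S1.indicator V1 R + S2.indicator V2 R) / (d * X) ^ t) (Icc X (2 * X)) :=
    ((j1.add j2).div_const _).integrableOn
  refine ⟨fun R => d * X + (S1.indicator V1 R + S2.indicator V2 R) / (d * X) ^ t, hconst.add j3, ?_, ?_⟩
  · intro R hR c
    obtain ⟨y, hy⟩ : ∃ y : ℝ, y = |cntc H c R - area H * R ^ 2 - sqrt R * Mx H (2 ^ n0) R c| := ⟨_, rfl⟩
    have hy0 : 0 ≤ y := by rw [hy]; exact abs_nonneg _
    have h6 : y ^ s ≤ S1.indicator V1 R + S2.indicator V2 R := by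
      by_cases hR1 : R ∈ S1
      · have e1 : S1.indicator V1 R = G1 R ^ s := by rw [indicator_of_mem hR1, hV1]
        rw [e1]
        have h1 := b1 R hR1 c
        rw [← hy] at h1
        have h2 := Real.rpow_le_rpow hy0 h1 hs0.le
        have := n2 R
        linarith
      · have hR2 : R ∈ S2 := by
          rw [hS1, mem_Icc, not_and_or] at hR1
          rw [hS2, mem_Icc]
          have h4 : (2 : ℝ) ^ (N + 1) = 2 * 2 ^ N := by ring
          rcases hR1 with h5 | h5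
          · exact absurd (hN1.trans hR.1) h5
          · push Not at h5
            constructor
            · linarith
            · have := hR.2
              linarith
        have e1 : S2.indicator V2 R = G2 R ^ s := by rw [indicator_of_mem hR2, hV2]
        rw [e1]
        have h1 := b2 R hR2 c
        rw [← hy] at h1
        have h2 := Real.rpow_le_rpow hy0 h1 hs0.le
        have := n1 R
        linarith
    rw [← hy]
    have hpt : y ^ 2 ≤ d * X + y ^ s / (d * X) ^ t := by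
      by_cases h1 : y ^ 2 ≤ d * X
      · have : 0 ≤ y ^ s / (d * X) ^ t := by positivity
        linarith
      · push Not at h1
        have h2 : y ^ 2 ≤ y ^ s / (d * X) ^ t := by
          rw [le_div_iff₀ hat]
          have h3 : (d * X) ^ t ≤ (y ^ 2) ^ t := Real.rpow_le_rpow ha.le h1.le ht0
          have hyp : 0 < y := by
            rcases hy0.eq_or_lt with h | h
            · rw [← h] at h1
              norm_num at h1
              linarith
            · exact h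
          have h4 : (y ^ 2) ^ t = y ^ (s - 2) := by
            rw [← Real.rpow_natCast y 2, ← Real.rpow_mul hy0, ht]
            congr 1
            push_cast
            ring
          calc y ^ 2 * (d * X) ^ t ≤ y ^ 2 * (y ^ 2) ^ t := mul_le_mul_of_nonneg_left h3 (by positivity)
            _ = y ^ s := by
              rw [h4, Real.rpow_sub hyp, Real.rpow_two]
              field_simp
        linarith
    refine hpt.trans ?_
    have h7 := div_le_div_of_nonneg_right h6 hat.le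
    linarith
  · rw [integral_add hconst j3, integral_div]
    have e1 : ∫ _ in Icc X (2 * X), d * X = d * X * X := by
      rw [setIntegral_const, Real.volume_real_Icc_of_le (by linarith), smul_eq_mul]
      ring
    have e2 : ∫ R in Icc X (2 * X), (S1.indicator V1 R + S2.indicator V2 R) ≤ κ * ((2 : ℝ) ^ N) ^ (1 + s / 2) + κ * ((2 : ℝ) ^ (N + 1)) ^ (1 + s / 2) := by
      have h1 : ∫ R in Icc X (2 * X), (S1.indicator V1 R + S2.indicator V2 R) ≤ ∫ R, (S1.indicator V1 R + S2.indicator V2 R) :=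
        setIntegral_le_integral (j1.add j2) (Eventually.of_forall fun R => add_nonneg (n1 R) (n2 R))
      rw [integral_add j1 j2, integral_indicator hm1, integral_indicator hm2] at h1
      linarith
    rw [e1]
    have h3 : ((2 : ℝ) ^ N) ^ (1 + s / 2) ≤ X ^ (1 + s / 2) := Real.rpow_le_rpow (by positivity) hN1 (by linarith)
    have h4 : ((2 : ℝ) ^ (N + 1)) ^ (1 + s / 2) = 2 ^ (1 + s / 2) * ((2 : ℝ) ^ N) ^ (1 + s / 2) := by
      rw [pow_succ, mul_comm, Real.mul_rpow (by norm_num) (by positivity)]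
    rw [h4] at e2
    have h5 : ∫ R in Icc X (2 * X), (S1.indicator V1 R + S2.indicator V2 R) ≤ d * d ^ t * X ^ (1 + s / 2) := by
      refine e2.trans ?_
      rw [← hκe]
      have h6 := mul_le_mul_of_nonneg_left h3 (mul_nonneg hκ0.le (by positivity : (0 : ℝ) ≤ 1 + 2 ^ (1 + s / 2)))
      linarith
    have h8 : X ^ (1 + s / 2) = X ^ 2 * X ^ t := by
      rw [← Real.rpow_two, ← Real.rpow_add hX0, ht]
      congr 1
      ring
    calc d * X * X + (∫ R in Icc X (2 * X), (S1.indicator V1 R + S2.indicator V2 R)) / (d * X) ^ t ≤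
        d * X * X + (d * d ^ t * X ^ (1 + s / 2)) / (d * X) ^ t := by gcongr
      _ = η * X ^ 2 := by
        rw [h8, Real.mul_rpow hd0.le hX0.le]
        have hdt : d ^ t ≠ 0 := (Real.rpow_pos_of_pos hd0 t).ne'
        have hXt : X ^ t ≠ 0 := (Real.rpow_pos_of_pos hX0 t).ne'
        have h9 : d * d ^ t * (X ^ 2 * X ^ t) / (d ^ t * X ^ t) = d * X ^ 2 := by
          field_simp
        rw [h9, hd]
        ring

/-- the tail at the worst centre: the hypothesis `htail` of `Helper22.WC.law_of_S` -/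
theorem htail {H : ℝ → ℝ} (hH : IsSupp H) {s e : ℝ} (hs : 2 ≤ s) (he : 0 < e) (he2 : e ≤ 1 / 8) (hB : BlkT H s e) :
    ∀ η : ℝ, 0 < η → ∃ (n0 : ℕ) (X₀ : ℝ), 1 ≤ X₀ ∧ ∀ X : ℝ, X₀ ≤ X → ∃ V : ℝ → ℝ, IntegrableOn V (Icc X (2 * X)) ∧
      (∀ R ∈ Icc X (2 * X), ∀ c : ℝ × ℝ, |cntc H c R - area H * R ^ 2 - sqrt R * Mx H (2 ^ n0) R c| ^ 2 ≤ V R) ∧
      ∫ R in Icc X (2 * X), V R ≤ η * X ^ 2 := by
  intro η hη
  obtain ⟨n0, X₀, -, h1, h2⟩ := htail_ge hH hs he he2 hB 0 η hη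
  exact ⟨n0, X₀, h1, h2⟩

/-- the growth of the moment of the worst centre -/
theorem growth {H : ℝ → ℝ} (hH : IsSupp H) {s e : ℝ} (hs : 2 ≤ s) (he : 0 < e) (he2 : e ≤ 1 / 8) (hB : BlkT H s e) :
    ∃ C : ℝ, ∀ X : ℝ, 1 ≤ X → ∫⁻ R in Icc X (2 * X), ⨆ c : ℝ × ℝ, ENNReal.ofReal (|cntc H c R - area H * R ^ 2| ^ s) ≤
      ENNReal.ofReal (C * X ^ (1 + s / 2)) := by
  obtain ⟨n0, p0, h⟩ := core hH hs he he2 hB one_pos
  obtain ⟨B, hB0, hBd⟩ := Pool.Agent.Helper92.LW.Mx_bd H (2 ^ n0)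
  have hs0 : 0 < s := by linarith
  have hA : 0 ≤ area H := ENNReal.toReal_nonneg
  obtain ⟨U, hU⟩ : ∃ U : ℝ, U = Pool.Agent.Helper60.WC.BB H (2 * 2 ^ p0) + area H * (2 * 2 ^ p0) ^ 2 := ⟨_, rfl⟩
  have hBB : 0 ≤ Pool.Agent.Helper60.WC.BB H (2 * 2 ^ p0) := by
    unfold Pool.Agent.Helper60.WC.BB
    positivity
  have hU0 : 0 ≤ U := by rw [hU]; positivity
  refine Pool.Agent.Helper75.LM.dyadic (by linarith) ⟨3 ^ s * (1 + (2 * B) ^ s) + U ^ s, fun p => ?_⟩
  obtain ⟨R0, hR0def⟩ : ∃ R0 : ℝ, R0 = 2 ^ p := ⟨_, rfl⟩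
  have hR1 : (1 : ℝ) ≤ R0 := by rw [hR0def]; exact one_le_pow₀ (by norm_num)
  have hR0 : (0 : ℝ) < R0 := by linarith
  have hpow : R0 ^ (1 + s / 2) = R0 * R0 ^ (s / 2) := by rw [Real.rpow_add hR0, Real.rpow_one]
  by_cases hp : p0 ≤ p
  · obtain ⟨G, g1, g2, g3, g4⟩ := h p hp
    rw [← hR0def] at g3 g4 ⊢
    have hpt : ∀ R ∈ Icc R0 (2 * R0), ⨆ c : ℝ × ℝ, ENNReal.ofReal (|cntc H c R - area H * R ^ 2| ^ s) ≤
        ENNReal.ofReal (3 ^ s * (G R ^ s + (2 * B) ^ s * R0 ^ (s / 2))) := by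
      intro R hR
      refine iSup_le fun c => ENNReal.ofReal_le_ofReal ?_
      have h1 := g3 R hR c
      have h2 := hBd R c
      have h3 : sqrt R ≤ 2 * sqrt R0 := by
        rw [show (2 : ℝ) * sqrt R0 = sqrt (4 * R0) by
          rw [Real.sqrt_mul (by norm_num), show (4 : ℝ) = 2 ^ 2 by norm_num, Real.sqrt_sq (by norm_num)]]
        exact Real.sqrt_le_sqrt (by linarith [hR.2])
      have h4 : |sqrt R * Mx H (2 ^ n0) R c| ≤ 2 * B * sqrt R0 := by
        rw [abs_mul, abs_of_nonneg (Real.sqrt_nonneg R)]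
        calc sqrt R * |Mx H (2 ^ n0) R c| ≤ (2 * sqrt R0) * B := mul_le_mul h3 h2 (abs_nonneg _) (by positivity)
          _ = _ := by ring
      have h5 : |cntc H c R - area H * R ^ 2| ≤ G R + 2 * B * sqrt R0 := by
        have h6 : cntc H c R - area H * R ^ 2 =
            (cntc H c R - area H * R ^ 2 - sqrt R * Mx H (2 ^ n0) R c) + sqrt R * Mx H (2 ^ n0) R c := by ring
        rw [h6]
        refine (abs_add_le _ _).trans ?_
        linarith
      have h7 := three_rpow (s := s) (g2 R) (by positivity : 0 ≤ 2 * B * sqrt R0) le_rfl hs0.le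
      have h8 : (2 * B * sqrt R0) ^ s = (2 * B) ^ s * R0 ^ (s / 2) := by
        rw [Real.mul_rpow (by positivity) (Real.sqrt_nonneg _), Real.sqrt_eq_rpow, ← Real.rpow_mul hR0.le]
        congr 2
        ring
      rw [Real.zero_rpow hs0.ne', h8] at h7
      simp only [add_zero] at h7
      exact (Real.rpow_le_rpow (abs_nonneg _) h5 hs0.le).trans h7
    have gi : IntegrableOn (fun R => 3 ^ s * (G R ^ s + (2 * B) ^ s * R0 ^ (s / 2))) (Icc R0 (2 * R0)) :=
      (continuous_const.mul ((g1.rpow_const fun _ => Or.inr hs0.le).add continuous_const)).continuousOn.integrableOn_compact isCompact_Icc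
    have gi1 : IntegrableOn (fun R => G R ^ s) (Icc R0 (2 * R0)) :=
      (g1.rpow_const fun _ => Or.inr hs0.le).continuousOn.integrableOn_compact isCompact_Icc
    have gi0 : IntegrableOn (fun _ : ℝ => (2 * B) ^ s * R0 ^ (s / 2)) (Icc R0 (2 * R0)) :=
      continuous_const.continuousOn.integrableOn_compact isCompact_Icc
    calc ∫⁻ R in Icc R0 (2 * R0), ⨆ c : ℝ × ℝ, ENNReal.ofReal (|cntc H c R - area H * R ^ 2| ^ s) ≤
        ∫⁻ R in Icc R0 (2 * R0), ENNReal.ofReal (3 ^ s * (G R ^ s + (2 * B) ^ s * R0 ^ (s / 2))) :=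
          setLIntegral_mono' measurableSet_Icc hpt
      _ = ENNReal.ofReal (∫ R in Icc R0 (2 * R0), 3 ^ s * (G R ^ s + (2 * B) ^ s * R0 ^ (s / 2))) := by
          rw [ofReal_integral_eq_lintegral_ofReal gi]
          exact Eventually.of_forall fun R => by
            have := Real.rpow_nonneg (g2 R) s
            show (0 : ℝ) ≤ 3 ^ s * (G R ^ s + (2 * B) ^ s * R0 ^ (s / 2))
            positivity
      _ ≤ _ := by
          refine ENNReal.ofReal_le_ofReal ?_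
          rw [integral_const_mul, integral_add gi1 gi0, setIntegral_const, Real.volume_real_Icc_of_le (by linarith), smul_eq_mul]
          have hU1 : 0 ≤ U ^ s * R0 ^ (1 + s / 2) := by positivity
          calc 3 ^ s * ((∫ R in Icc R0 (2 * R0), G R ^ s) + (2 * R0 - R0) * ((2 * B) ^ s * R0 ^ (s / 2))) ≤
              3 ^ s * (1 * R0 ^ (1 + s / 2) + (2 * R0 - R0) * ((2 * B) ^ s * R0 ^ (s / 2))) := by gcongr
            _ = 3 ^ s * (1 + (2 * B) ^ s) * R0 ^ (1 + s / 2) := by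
                rw [hpow]
                ring
            _ ≤ _ := by
                rw [add_mul]
                linarith
  · push Not at hp
    rw [← hR0def]
    have hle : R0 ≤ 2 ^ p0 := by
      rw [hR0def]
      exact pow_le_pow_right₀ (by norm_num) hp.le
    have hpt : ∀ R ∈ Icc R0 (2 * R0), ⨆ c : ℝ × ℝ, ENNReal.ofReal (|cntc H c R - area H * R ^ 2| ^ s) ≤ ENNReal.ofReal (U ^ s) := by
      intro R hR
      refine iSup_le fun c => ENNReal.ofReal_le_ofReal (Real.rpow_le_rpow (abs_nonneg _) ?_ hs0.le)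
      have h0 : (0 : ℝ) ≤ R := by linarith [hR.1]
      have hR2 : R ≤ 2 * 2 ^ p0 := by linarith [hR.2]
      refine (Pool.Agent.Helper60.WC.abs_le H c R).trans ?_
      rw [hU]
      have h2 : R ^ 2 ≤ (2 * 2 ^ p0) ^ 2 := pow_le_pow_left₀ h0 hR2 2
      exact add_le_add (Pool.Agent.Helper60.WC.BB_mono h0 hR2) (mul_le_mul_of_nonneg_left h2 hA)
    calc ∫⁻ R in Icc R0 (2 * R0), ⨆ c : ℝ × ℝ, ENNReal.ofReal (|cntc H c R - area H * R ^ 2| ^ s) ≤
        ∫⁻ _ in Icc R0 (2 * R0), ENNReal.ofReal (U ^ s) := setLIntegral_mono' measurableSet_Icc hpt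
      _ = ENNReal.ofReal (U ^ s * R0) := by
          rw [setLIntegral_const, Real.volume_Icc, ← ENNReal.ofReal_mul (by positivity)]
          congr 1
          ring
      _ ≤ _ := by
          refine ENNReal.ofReal_le_ofReal ?_
          have h1 : R0 ≤ R0 ^ (1 + s / 2) := by
            calc R0 = R0 ^ (1 : ℝ) := (Real.rpow_one _).symm
              _ ≤ _ := Real.rpow_le_rpow_of_exponent_le hR1 (by linarith)
          have h2 : 0 ≤ 3 ^ s * (1 + (2 * B) ^ s) * R0 ^ (1 + s / 2) := by positivity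
          have h3 : U ^ s * R0 ≤ U ^ s * R0 ^ (1 + s / 2) := mul_le_mul_of_nonneg_left h1 (by positivity)
          rw [add_mul]
          linarith

end Pool.Agent.Helper60.LMA
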